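import Pool.Agent.H33.GC.Stm
import Pool.Agent.H20.WC.Main

/-!
Wandering continua in general position (problem MP_90715c_gt), row 3: the exceptional set of
translations is meager and null.
-/

open Matrix Set Filter Topology MeasureTheory

namespace Pool.Agent.H7.GC

open Pool.Agent.H90.WC Pool.Agent.H33.GC

theorem secondCountable_G : SecondCountableTopology G :=
  have : SecondCountableTopology (Matrix (Fin 2) (Fin 2) ℂ) :=
    (inferInstance : SecondCountableTopology (Fin 2 → Fin 2 → ℂ))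
  (Matrix.SpecialLinearGroup.isClosedEmbedding_val (n := Fin 2)
    (R := ℂ)).isInducing.secondCountableTopology

lemma nhds_one {U : Set G} (hU : U ∈ 𝓝 (1 : G)) :
    ∃ δ > (0 : ℝ), ∀ p : G, ‖p 0 0 - 1‖ < δ → ‖p 0 1‖ < δ → ‖p 1 0‖ < δ → ‖p 1 1 - 1‖ < δ →
      p ∈ U := by
  by_contra hcon
  push Not at hcon
  have h := fun n : ℕ => hcon (1 / ((n : ℝ) + 1)) (by positivity)
  choose p h1 h2 h3 h4 h5 using h
  have hlim : Tendsto (fun n : ℕ => 1 / ((n : ℝ) + 1)) atTop (𝓝 0) :=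
    tendsto_one_div_add_atTop_nhds_zero_nat
  have hp : Tendsto p atTop (𝓝 1) := by
    refine tendsto_iff.2 ?_
    have key : ∀ (f : ℕ → ℂ) (a : ℂ), (∀ n : ℕ, ‖f n - a‖ < 1 / ((n : ℝ) + 1)) →
        Tendsto f atTop (𝓝 a) := by
      intro f a hf
      rw [tendsto_iff_norm_sub_tendsto_zero]
      exact squeeze_zero (fun n => norm_nonneg _) (fun n => (hf n).le) hlim
    intro i j
    fin_cases i <;> fin_cases j
    · exact key _ _ (by simpa using h1)
    · exact key _ _ (by simpa using h2)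
    · exact key _ _ (by simpa using h3)
    · exact key _ _ (by simpa using h4)
  obtain ⟨n, hn⟩ := (hp.eventually hU).exists
  exact h5 n hn

/-- the tube. -/
def tube (δ : ℝ) : Set G := {h | ‖h 1 1 - 1‖ < δ ∧ ‖h 1 0‖ < δ}

lemma isOpen_tube (δ : ℝ) : IsOpen (tube δ) := by
  have h1 : Continuous fun h : G => ‖h 1 1 - 1‖ := ((continuous_entry 1 1).sub continuous_const).norm
  have h2 : Continuous fun h : G => ‖h 1 0‖ := (continuous_entry 1 0).norm
  exact (isOpen_lt h1 continuous_const).inter (isOpen_lt h2 continuous_const)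

lemma one_mem_tube {δ : ℝ} (hδ : 0 < δ) : (1 : G) ∈ tube δ := by
  simp [tube, hδ]

lemma tube_ne {δ : ℝ} (hδ : δ ≤ 1) {h : G} (hh : h ∈ tube δ) : h 1 1 ≠ 0 := by
  intro h0
  have h1 := hh.1
  rw [h0] at h1
  simp only [zero_sub, norm_neg, norm_one] at h1
  linarith

@[simp] lemma tr_00 (β : ℂ) : tr β 0 0 = 1 := rfl
@[simp] lemma tr_01 (β : ℂ) : tr β 0 1 = β := rfl
@[simp] lemma tr_10 (β : ℂ) : tr β 1 0 = 0 := rfl
@[simp] lemma tr_11 (β : ℂ) : tr β 1 1 = 1 := rfl
@[simp] lemma sc_00 (k : ℕ) : sc k 0 0 = (1 / 2) ^ k := rfl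
@[simp] lemma sc_01 (k : ℕ) : sc k 0 1 = 0 := rfl
@[simp] lemma sc_10 (k : ℕ) : sc k 1 0 = 0 := rfl
@[simp] lemma sc_11 (k : ℕ) : sc k 1 1 = 2 ^ k := rfl

lemma continuous_tr : Continuous tr := by
  rw [continuous_iff_continuousAt]
  intro β
  refine tendsto_iff.2 ?_
  intro i j
  fin_cases i <;> fin_cases j
  · exact tendsto_const_nhds
  · exact tendsto_id
  · exact tendsto_const_nhds
  · exact tendsto_const_nhds

lemma null_B [MeasurableSpace G] [BorelSpace G] (μ : Measure G) [μ.IsHaarMeasure] {B : Set ℂ}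
    (hB : MeasurableSet B) {δ : ℝ} (hδ : 0 < δ) (hδ1 : δ ≤ 1)
    (h0 : μ {h : G | h 0 1 / h 1 1 ∈ B ∧ h ∈ tube δ} = 0) : volume B = 0 := by
  have := locallyCompact_G
  have := secondCountable_G
  have hq : Measurable fun h : G => h 0 1 / h 1 1 :=
    (continuous_entry 0 1).measurable.div (continuous_entry 1 1).measurable
  have hT : MeasurableSet (tube δ) := (isOpen_tube δ).measurableSet
  let ν : Measure ℂ := (μ.restrict (tube δ)).map fun h : G => h 0 1 / h 1 1
  have hinv : ν.IsAddLeftInvariant := by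
    refine ⟨fun c => ?_⟩
    have hm : Measurable fun h : G => tr c * h := measurable_const_mul (tr c)
    have e1 : (μ.restrict (tube δ)).map (fun h : G => tr c * h) = μ.restrict (tube δ) := by
      have e2 : (fun h : G => tr c * h) ⁻¹' tube δ = tube δ := by
        ext h
        simp only [tube, mem_preimage, mem_ofPred_eq, mul_11, mul_10, tr_10, tr_11, zero_mul,
          one_mul, zero_add]
      have e3 := Measure.restrict_map (μ := μ) hm hT
      rw [e2, map_mul_left_eq_self] at e3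
      exact e3.symm
    calc Measure.map (fun x => c + x) ν
        = (μ.restrict (tube δ)).map (fun h : G => c + h 0 1 / h 1 1) := by
          rw [Measure.map_map (measurable_const_add c) hq]
          rfl
      _ = (μ.restrict (tube δ)).map (fun h : G => (tr c * h) 0 1 / (tr c * h) 1 1) := by
          refine Measure.map_congr ?_
          filter_upwards [ae_restrict_mem hT] with h hh
          have hne := tube_ne hδ1 hh
          simp only [mul_01, mul_11, tr_00, tr_01, tr_10, tr_11, zero_mul, one_mul, zero_add]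
          field_simp
          ring
      _ = ((μ.restrict (tube δ)).map (fun h : G => tr c * h)).map
          (fun h : G => h 0 1 / h 1 1) := by
          rw [Measure.map_map hq hm]
          rfl
      _ = ν := by rw [e1]
  have hne : ν ≠ 0 := by
    intro h
    have h1 : ν univ = 0 := by rw [h]; rfl
    rw [Measure.map_apply hq MeasurableSet.univ, preimage_univ, Measure.restrict_apply_univ] at h1
    exact ((isOpen_tube δ).measure_ne_zero μ ⟨1, one_mem_tube hδ⟩) h1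
  have hac : (volume : Measure ℂ) ≪ ν := absolutelyContinuous_of_isAddLeftInvariant volume ν hne
  refine hac ?_
  rw [Measure.map_apply hq hB, Measure.restrict_apply (hq hB)]
  exact h0

/-- the bad set of translations. -/
def bad (Γ : Subgroup G) (b : ℕ → ℂ) (b0 : ℂ) (V : Set G) (ε : ℝ) (T : ℕ) : Set ℂ :=
  {β | ¬ ∃ k > T, ‖b k - b0‖ < ε ∧ ∃ γ ∈ Γ, γ * tr β * sc k ∈ V}

lemma isClosed_bad (Γ : Subgroup G) (b : ℕ → ℂ) (b0 : ℂ) {V : Set G} (hV : IsOpen V) (ε : ℝ)
    (T : ℕ) : IsClosed (bad Γ b b0 V ε T) := by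
  rw [← isOpen_compl_iff]
  have e : (bad Γ b b0 V ε T)ᶜ = ⋃ k : ℕ, ⋃ _ : k > T ∧ ‖b k - b0‖ < ε, ⋃ γ ∈ Γ,
      (fun β => γ * tr β * sc k) ⁻¹' V := by
    ext β
    simp only [bad, mem_compl_iff, mem_ofPred_eq, not_not, mem_iUnion, mem_preimage, exists_prop,
      and_assoc]
  rw [e]
  refine isOpen_iUnion fun k => isOpen_iUnion fun _ => isOpen_iUnion fun γ =>
    isOpen_iUnion fun _ => ?_
  exact hV.preimage ((continuous_const.mul continuous_tr).mul continuous_const)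

theorem null_bad [MeasurableSpace G] [BorelSpace G] (μ : Measure G) [μ.IsHaarMeasure]
    (Γ : Subgroup G) (b : ℕ → ℂ) (b0 : ℂ)
    (H : ∀ ε > (0 : ℝ), ∀ W : Set G, MeasurableSet W → μ W ≠ 0 →
      ∀ V : Set G, IsOpen V → V.Nonempty → ∀ T : ℕ, ∃ k > T, ‖b k - b0‖ < ε ∧
        ∃ h ∈ W, ∃ γ ∈ Γ, γ * h * sc k ∈ V) {V : Set G} (hV : IsOpen V) (hVn : V.Nonempty)
    {ε : ℝ} (hε : 0 < ε) (T : ℕ) : volume (bad Γ b b0 V ε T) = 0 := by
  obtain ⟨v, hv⟩ := hVn
  have hmul : Tendsto (fun x : G × G => x.1 * x.2) (𝓝 (v, 1)) (𝓝 (v * 1)) :=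
    continuous_mul.tendsto _
  rw [mul_one] at hmul
  have hm := hmul (hV.mem_nhds hv)
  rw [Filter.mem_map, nhds_prod_eq, mem_prod_iff] at hm
  obtain ⟨V₁, hV₁, N, hN, hVN⟩ := hm
  obtain ⟨δ, hδ, hδN⟩ := nhds_one hN
  obtain ⟨δ', hδ', hδ'1, hδ'2⟩ : ∃ δ' : ℝ, 0 < δ' ∧ δ' ≤ 1 / 2 ∧ 2 * δ' ≤ δ :=
    ⟨min (1 / 2) (δ / 2), by positivity, min_le_left _ _, by
      have := min_le_right (1 / 2 : ℝ) (δ / 2)
      linarith⟩
  by_contra hne
  have hBc := isClosed_bad Γ b b0 hV ε T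
  have hq : Measurable fun h : G => h 0 1 / h 1 1 :=
    (continuous_entry 0 1).measurable.div (continuous_entry 1 1).measurable
  have hW : MeasurableSet {h : G | h 0 1 / h 1 1 ∈ bad Γ b b0 V ε T ∧ h ∈ tube δ'} :=
    (hq hBc.measurableSet).inter (isOpen_tube δ').measurableSet
  have hWne : μ {h : G | h 0 1 / h 1 1 ∈ bad Γ b b0 V ε T ∧ h ∈ tube δ'} ≠ 0 := fun h0 =>
    hne (null_B μ hBc.measurableSet hδ' (by linarith) h0)
  obtain ⟨k, hk, hbk, h, ⟨hB, hT⟩, γ, hγ, hmem⟩ := H ε hε _ hW hWne (interior V₁) isOpen_interior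
    ⟨v, mem_interior_iff_mem_nhds.2 hV₁⟩ T
  refine hB ⟨k, hk, hbk, γ, hγ, ?_⟩
  have h11 : h 1 1 ≠ 0 := tube_ne (by linarith) hT
  have hdet := det_eq h
  let r : G := ⟨!![h 1 1, 0; -(h 1 0) * (1 / 2) ^ k * (1 / 2) ^ k, (h 1 1)⁻¹], by
    rw [Matrix.det_fin_two_of, mul_inv_cancel₀ h11]; ring⟩
  have r00 : r 0 0 = h 1 1 := rfl
  have r01 : r 0 1 = 0 := rfl
  have r10 : r 1 0 = -(h 1 0) * (1 / 2) ^ k * (1 / 2) ^ k := rfl
  have r11 : r 1 1 = (h 1 1)⁻¹ := rfl
  have h2 : ((1 / 2 : ℂ)) ^ k * 2 ^ k = 1 := by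
    rw [← mul_pow]
    norm_num
  have e : γ * tr (h 0 1 / h 1 1) * sc k = γ * h * sc k * r := by
    rw [mul_assoc, mul_assoc γ h, mul_assoc γ]
    congr 1
    apply ext_G
    · simp only [mul_00, mul_01, tr_00, tr_01, sc_00, sc_10, sc_01, sc_11, r00, r10]
      linear_combination (-(1 / 2 : ℂ) ^ k) * hdet + (h 0 1) * (h 1 0) * (1 / 2 : ℂ) ^ k * h2
    · simp only [mul_00, mul_01, tr_00, tr_01, sc_00, sc_10, sc_01, sc_11, r01, r11]
      field_simp
      ring
    · simp only [mul_10, mul_11, tr_10, tr_11, sc_00, sc_10, sc_01, sc_11, r00, r10]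
      linear_combination (h 1 1) * (h 1 0) * (1 / 2 : ℂ) ^ k * h2
    · simp only [mul_10, mul_11, tr_10, tr_11, sc_00, sc_10, sc_01, sc_11, r01, r11]
      field_simp
      ring
  rw [e]
  have hhalf : (1 : ℝ) / 2 ≤ ‖h 1 1‖ := by
    have h3 : ‖(1 : ℂ)‖ - ‖(1 : ℂ) - h 1 1‖ ≤ ‖h 1 1‖ := by
      have := norm_sub_norm_le (1 : ℂ) (1 - h 1 1)
      rwa [sub_sub_cancel] at this
    rw [norm_sub_rev, norm_one] at h3
    have := hT.1
    linarith
  have hr : r ∈ N := by
    refine hδN r ?_ ?_ ?_ ?_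
    · rw [r00]
      exact lt_of_lt_of_le hT.1 (by linarith)
    · rw [r01, norm_zero]
      exact hδ
    · rw [r10, norm_mul, norm_mul, norm_neg]
      have h4 : ‖(1 / 2 : ℂ) ^ k‖ ≤ 1 := by
        rw [norm_pow]
        refine pow_le_one₀ (norm_nonneg _) ?_
        norm_num
      have h5 := norm_nonneg ((1 / 2 : ℂ) ^ k)
      have h6 : ‖h 1 0‖ * ‖(1 / 2 : ℂ) ^ k‖ * ‖(1 / 2 : ℂ) ^ k‖ ≤ ‖h 1 0‖ := by
        calc _ ≤ ‖h 1 0‖ * 1 * 1 := by gcongr
          _ = _ := by ring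
      have := hT.2
      linarith
    · rw [r11]
      have e2 : (h 1 1)⁻¹ - 1 = (1 - h 1 1) / h 1 1 := by field_simp
      rw [e2, norm_div, norm_sub_rev, div_lt_iff₀ (by linarith)]
      have := hT.1
      nlinarith
  exact hVN (mk_mem_prod (interior_subset hmem) hr)

theorem row3 (h2 : B0Stmt) : GenStmt := by
  intro Γ _ _ b hb
  let _ : MeasurableSpace G := borel G
  have : BorelSpace G := ⟨rfl⟩
  have := locallyCompact_G
  have := secondCountable_G
  obtain ⟨b0, hb0, H⟩ := h2 Γ (Measure.haar : Measure G) b hb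
  refine ⟨b0, hb0, ?_⟩
  have hcb := TopologicalSpace.countable_countableBasis G
  have : Countable (TopologicalSpace.countableBasis G) := hcb.to_subtype
  have hbas := TopologicalSpace.isBasis_countableBasis G
  have hnull : ∀ (V : TopologicalSpace.countableBasis G) (n T : ℕ),
      volume (bad Γ b b0 (V : Set G) (1 / ((n : ℝ) + 1)) T) = 0 := fun V n T =>
    null_bad (Measure.haar : Measure G) Γ b b0 H (hbas.isOpen V.2)
      (TopologicalSpace.nonempty_of_mem_countableBasis V.2) (by positivity) T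
  refine ⟨⋃ V : TopologicalSpace.countableBasis G, ⋃ n : ℕ, ⋃ T : ℕ,
    bad Γ b b0 (V : Set G) (1 / ((n : ℝ) + 1)) T, ?_, ?_, ?_⟩
  · refine isMeagre_iUnion fun V => isMeagre_iUnion fun n => isMeagre_iUnion fun T => ?_
    refine IsNowhereDense.isMeagre ?_
    exact (isClosed_bad Γ b b0 (hbas.isOpen V.2) _ T).isNowhereDense_iff.mpr
      (Measure.interior_eq_empty_of_null (hnull V n T))
  · exact measure_iUnion_null fun V => measure_iUnion_null fun n => measure_iUnion_null fun T =>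
      hnull V n T
  · intro β hβ f V hV ε hε T
    obtain ⟨V', hV', hfV', hsub⟩ := hbas.mem_nhds_iff.1 hV
    obtain ⟨n, hn⟩ := exists_nat_one_div_lt hε
    have h1 : β ∉ bad Γ b b0 V' (1 / ((n : ℝ) + 1)) T := fun h =>
      hβ (mem_iUnion.2 ⟨⟨V', hV'⟩, mem_iUnion.2 ⟨n, mem_iUnion.2 ⟨T, h⟩⟩⟩)
    rw [bad, mem_ofPred_eq, not_not] at h1
    obtain ⟨k, hk, hbk, γ, hγ, hmem⟩ := h1
    exact ⟨k, hk, hbk.trans hn, γ, hγ, hsub hmem⟩

end Pool.Agent.H7.GC
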